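import Mathlib

/-!
# The residual spectrum of the stochastic adding machine operator is empty
-/

namespace Pool.Agent.Results.MP_8907f9_an.ResidualEmpty

open Filter Topology Finset

/-- The digit space, with digits `d_{r+1} = e r + 2 ≥ 2`. -/
abbrev Dig (e : ℕ → ℕ) : Type := ∀ r : ℕ, Fin (e r + 2)

variable {e : ℕ → ℕ}

/-- Adding one with carries: the digit `r` changes iff all lower digits are maximal, and then it
is increased by one modulo its base. -/
def succDig (x : Dig e) : Dig e := fun r =>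
  if ∀ j < r, x j = Fin.last (e j + 1) then x r + 1 else x r

/-- Replace the first `s` digits by `0`. -/
def cut (s : ℕ) (x : Dig e) : Dig e := fun r => if r < s then 0 else x r

/-- The formula defining the stochastic adding machine operator. With `k` the least index whose
digit is not maximal one has `s_x = k + 1`; if there is none then `s_x = ∞`. -/
noncomputable def formula (p : ℕ → ℝ) (g : Dig e → ℂ) (x : Dig e) : ℂ :=
  open Classical in
  if h : ∃ r, x r ≠ Fin.last (e r + 1) then
    (1 - p 0 : ℝ) * g x + (∏ r ∈ range (Nat.find h + 1), p r : ℝ) * g (succDig x) +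
      ∑ s ∈ Icc 1 (Nat.find h), ((∏ r ∈ range s, p r) * (1 - p s) : ℝ) * g (cut s x)
  else
    (1 - p 0 : ℝ) * g x + (∏' r, p r : ℝ) * g (succDig x) +
      ∑' s : ℕ, ((∏ r ∈ range (s + 1), p r) * (1 - p (s + 1)) : ℝ) * g (cut (s + 1) x)

/-- The partial products. -/
noncomputable def PP (p : ℕ → ℝ) (s : ℕ) : ℝ := ∏ r ∈ range s, p r

section weights

variable {p : ℕ → ℝ}

theorem PP_zero : PP p 0 = 1 := by simp [PP]

theorem PP_succ (s : ℕ) : PP p (s + 1) = PP p s * p s := by simp [PP, prod_range_succ]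

theorem PP_nonneg (hp : ∀ r, 0 < p r ∧ p r ≤ 1) (s : ℕ) : 0 ≤ PP p s :=
  prod_nonneg fun r _ => (hp r).1.le

theorem wt_eq (s : ℕ) : PP p s * (1 - p s) = PP p s - PP p (s + 1) := by
  rw [PP_succ]; ring

theorem wt_nonneg (hp : ∀ r, 0 < p r ∧ p r ≤ 1) (s : ℕ) : 0 ≤ PP p s * (1 - p s) :=
  mul_nonneg (PP_nonneg hp s) (by have := (hp s).2; linarith)

theorem tendsto_PP (hp : ∀ r, 0 < p r ∧ p r ≤ 1) :
    Tendsto (PP p) atTop (𝓝 (∏' r, p r)) := by
  have hanti : Antitone (fun s : Finset ℕ => ∏ r ∈ s, p r) := by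
    intro s t hst
    show ∏ r ∈ t, p r ≤ ∏ r ∈ s, p r
    rw [← Finset.prod_sdiff hst]
    have h1 : ∏ r ∈ t \ s, p r ≤ 1 :=
      Finset.prod_le_one (fun i _ => (hp i).1.le) (fun i _ => (hp i).2)
    have h2 : 0 ≤ ∏ r ∈ s, p r := Finset.prod_nonneg fun r _ => (hp r).1.le
    nlinarith
  have hbdd : BddBelow (Set.range (fun s : Finset ℕ => ∏ r ∈ s, p r)) := by
    refine ⟨0, ?_⟩
    rintro _ ⟨s, rfl⟩
    exact Finset.prod_nonneg fun r _ => (hp r).1.le
  have h1 : HasProd p (⨅ s : Finset ℕ, ∏ r ∈ s, p r) := tendsto_atTop_ciInf hanti hbdd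
  rw [h1.tprod_eq]
  exact h1.tendsto_prod_nat

theorem lim_nonneg (hp : ∀ r, 0 < p r ∧ p r ≤ 1) : 0 ≤ ∏' r, p r :=
  ge_of_tendsto' (tendsto_PP hp) (PP_nonneg hp)

/-- Telescoping from `r` on. -/
theorem hasSum_wt (hp : ∀ r, 0 < p r ∧ p r ≤ 1) (r : ℕ) :
    HasSum (fun s => PP p (s + r) * (1 - p (s + r))) (PP p r - ∏' r, p r) := by
  rw [hasSum_iff_tendsto_nat_of_nonneg (fun s => wt_nonneg hp _)]
  have h1 : ∀ n, ∑ i ∈ range n, PP p (i + r) * (1 - p (i + r)) = PP p r - PP p (n + r) := by
    intro n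
    induction n with
    | zero => simp
    | succ n ih =>
      rw [sum_range_succ, ih, wt_eq, show n + 1 + r = n + r + 1 by ring]
      ring
  rw [tendsto_congr h1]
  exact tendsto_const_nhds.sub ((tendsto_PP hp).comp (tendsto_add_atTop_nat r))

end weights

theorem cut_zero (x : Dig e) : cut 0 x = x := by
  funext r
  simp [cut]

/-- The formula when some digit is not maximal. -/
theorem formula_fin (p : ℕ → ℝ) (g : Dig e → ℂ) (x : Dig e) (k : ℕ)
    (hk : x k ≠ Fin.last (e k + 1)) (hlt : ∀ j < k, x j = Fin.last (e j + 1)) :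
    formula p g x = ∑ s ∈ range (k + 1), (PP p s * (1 - p s) : ℝ) * g (cut s x) +
      (PP p (k + 1) : ℝ) * g (succDig x) := by
  classical
  have h : ∃ r, x r ≠ Fin.last (e r + 1) := ⟨k, hk⟩
  have hfind : Nat.find h = k := by
    rw [Nat.find_eq_iff]
    exact ⟨hk, fun j hj => not_not.mpr (hlt j hj)⟩
  unfold formula
  rw [dif_pos h]
  have h2 : Nat.find h = k := hfind
  have h3 : ∑ s ∈ range (k + 1), (PP p s * (1 - p s) : ℝ) * g (cut s x) =
      (1 - p 0 : ℝ) * g x + ∑ s ∈ Icc 1 k, ((PP p s) * (1 - p s) : ℝ) * g (cut s x) := by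
    rw [sum_range_eq_add_Ico _ (Nat.succ_pos k), PP_zero, one_mul, cut_zero]
    rfl
  rw [h3]
  convert! (add_right_comm _ _ _) using 3
  all_goals simp only [h2]
  all_goals rfl

/-- The formula at the point all of whose digits are maximal. -/
theorem formula_inf (p : ℕ → ℝ) (g : Dig e → ℂ) (x : Dig e)
    (hx : ∀ j, x j = Fin.last (e j + 1)) :
    formula p g x = (1 - p 0 : ℝ) * g x + (∏' r, p r : ℝ) * g (succDig x) +
      ∑' s : ℕ, (PP p (s + 1) * (1 - p (s + 1)) : ℝ) * g (cut (s + 1) x) := by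
  classical
  unfold formula
  rw [dif_neg (by push Not; exact hx)]
  rfl

/-- A function depends only on the first `r` digits. -/
def DependsOn (r : ℕ) (g : Dig e → ℂ) : Prop :=
  ∀ x y : Dig e, (∀ j < r, x j = y j) → g x = g y

theorem formula_of_all_max (p : ℕ → ℝ) (hp : ∀ r, 0 < p r ∧ p r ≤ 1) (g : Dig e → ℂ) (r : ℕ)
    (hg : DependsOn r g) (x : Dig e) (hx : ∀ j < r, x j = Fin.last (e j + 1)) :
    formula p g x = ∑ s ∈ range r, (PP p s * (1 - p s) : ℝ) * g (cut s x) +
      (PP p r : ℝ) * g 0 := by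
  have hcut : ∀ s, r ≤ s → g (cut s x) = g 0 := by
    intro s hs
    apply hg
    intro j hj
    simp [cut, lt_of_lt_of_le hj hs]
  have hsucc : g (succDig x) = g 0 := by
    apply hg
    intro j hj
    have : ∀ i < j, x i = Fin.last (e i + 1) := fun i hi => hx i (hi.trans hj)
    simp [succDig, if_pos this, hx j hj]
  by_cases hall : ∀ j, x j = Fin.last (e j + 1)
  · rw [formula_inf p g x hall, hsucc]
    have hs1 : Summable (fun s : ℕ => (PP p s * (1 - p s) : ℝ) * g (cut s x)) := by
      rw [← summable_nat_add_iff r]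
      have : (fun s : ℕ => ((PP p (s + r) * (1 - p (s + r)) : ℝ) : ℂ) * g (cut (s + r) x)) =
          fun s => ((PP p (s + r) * (1 - p (s + r)) : ℝ) : ℂ) * g 0 := by
        funext s
        rw [hcut _ (by omega)]
      rw [this]
      exact (Complex.hasSum_ofReal.mpr (hasSum_wt hp r)).summable.mul_right _
    have h1 : (1 - p 0 : ℝ) * g x +
        ∑' s : ℕ, (PP p (s + 1) * (1 - p (s + 1)) : ℝ) * g (cut (s + 1) x) =
        ∑' s : ℕ, (PP p s * (1 - p s) : ℝ) * g (cut s x) := by
      rw [hs1.tsum_eq_zero_add, PP_zero, one_mul, cut_zero]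
    have h2 : ∑' s : ℕ, (PP p s * (1 - p s) : ℝ) * g (cut s x) =
        ∑ s ∈ range r, (PP p s * (1 - p s) : ℝ) * g (cut s x) +
          ((PP p r - ∏' r, p r : ℝ) : ℂ) * g 0 := by
      rw [← hs1.sum_add_tsum_nat_add r]
      congr 1
      have : (fun s : ℕ => ((PP p (s + r) * (1 - p (s + r)) : ℝ) : ℂ) * g (cut (s + r) x)) =
          fun s => ((PP p (s + r) * (1 - p (s + r)) : ℝ) : ℂ) * g 0 := by
        funext s
        rw [hcut _ (by omega)]
      rw [this]
      exact ((Complex.hasSum_ofReal.mpr (hasSum_wt hp r)).mul_right _).tsum_eq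
    rw [add_right_comm, h1, h2]
    push_cast
    ring
  · push Not at hall
    classical
    set k := Nat.find hall with hkdef
    have hk : x k ≠ Fin.last (e k + 1) := Nat.find_spec hall
    have hlt : ∀ j < k, x j = Fin.last (e j + 1) := fun j hj => not_not.mp (Nat.find_min hall hj)
    have hrk : r ≤ k := by
      by_contra hcon
      exact hk (hx k (by omega))
    rw [formula_fin p g x k hk hlt, hsucc]
    have h1 : ∀ m, ∑ s ∈ range (r + m), (PP p s * (1 - p s) : ℝ) * g (cut s x) =
        ∑ s ∈ range r, (PP p s * (1 - p s) : ℝ) * g (cut s x) +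
          ((PP p r - PP p (r + m) : ℝ) : ℂ) * g 0 := by
      intro m
      induction m with
      | zero => simp
      | succ m ih =>
        rw [← add_assoc, sum_range_succ, ih, hcut _ (by omega), wt_eq]
        push_cast
        ring
    have h2 := h1 (k + 1 - r)
    rw [show r + (k + 1 - r) = k + 1 by omega] at h2
    rw [h2]
    push_cast
    ring

theorem dependsOn_formula (p : ℕ → ℝ) (hp : ∀ r, 0 < p r ∧ p r ≤ 1) (g : Dig e → ℂ) (r : ℕ)
    (hg : DependsOn r g) : DependsOn r (formula p g) := by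
  intro x y hxy
  have hcut : ∀ s, g (cut s x) = g (cut s y) := by
    intro s
    apply hg
    intro j hj
    simp [cut, hxy j hj]
  by_cases hall : ∀ j < r, x j = Fin.last (e j + 1)
  · rw [formula_of_all_max p hp g r hg x hall, formula_of_all_max p hp g r hg y
      (fun j hj => by rw [← hxy j hj]; exact hall j hj)]
    congr 1
    apply sum_congr rfl
    intro s _
    rw [hcut]
  · push Not at hall
    classical
    have hall' : ∃ j, x j ≠ Fin.last (e j + 1) := by
      obtain ⟨j, _, hj⟩ := hall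
      exact ⟨j, hj⟩
    set k := Nat.find hall' with hkdef
    have hk : x k ≠ Fin.last (e k + 1) := Nat.find_spec hall'
    have hlt : ∀ j < k, x j = Fin.last (e j + 1) := fun j hj => not_not.mp (Nat.find_min hall' hj)
    have hkr : k < r := by
      obtain ⟨j, hjr, hj⟩ := hall
      exact lt_of_le_of_lt (Nat.find_min' hall' hj) hjr
    rw [formula_fin p g x k hk hlt, formula_fin p g y k (by rw [← hxy k hkr]; exact hk)
      (fun j hj => by rw [← hxy j (hj.trans hkr)]; exact hlt j hj)]
    congr 1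
    · apply sum_congr rfl
      intro s _
      rw [hcut]
    · congr 1
      apply hg
      intro j hj
      have : (∀ i < j, x i = Fin.last (e i + 1)) ↔ (∀ i < j, y i = Fin.last (e i + 1)) := by
        constructor
        · intro h i hi
          rw [← hxy i (hi.trans hj)]
          exact h i hi
        · intro h i hi
          rw [hxy i (hi.trans hj)]
          exact h i hi
      simp only [succDig, this, hxy j hj]

theorem norm_formula_le (p : ℕ → ℝ) (hp : ∀ r, 0 < p r ∧ p r ≤ 1) (g : Dig e → ℂ) (C : ℝ)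
    (hC : ∀ x, ‖g x‖ ≤ C) (x : Dig e) : ‖formula p g x‖ ≤ C := by
  have hw : ∀ s z, ‖((PP p s * (1 - p s) : ℝ) : ℂ) * g z‖ ≤ (PP p s * (1 - p s)) * C := by
    intro s z
    rw [norm_mul, Complex.norm_real, Real.norm_eq_abs, abs_of_nonneg (wt_nonneg hp s)]
    exact mul_le_mul_of_nonneg_left (hC z) (wt_nonneg hp s)
  by_cases hall : ∀ j, x j = Fin.last (e j + 1)
  · rw [formula_inf p g x hall]
    have h0 : ‖((1 - p 0 : ℝ) : ℂ) * g x‖ ≤ (1 - p 0) * C := by
      have := hw 0 x
      rwa [PP_zero, one_mul] at this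
    have h1 : ‖((∏' r, p r : ℝ) : ℂ) * g (succDig x)‖ ≤ (∏' r, p r) * C := by
      rw [norm_mul, Complex.norm_real, Real.norm_eq_abs, abs_of_nonneg (lim_nonneg hp)]
      exact mul_le_mul_of_nonneg_left (hC _) (lim_nonneg hp)
    have h2 : ‖∑' s : ℕ, ((PP p (s + 1) * (1 - p (s + 1)) : ℝ) : ℂ) * g (cut (s + 1) x)‖ ≤
        (PP p 1 - ∏' r, p r) * C :=
      tsum_of_norm_bounded ((hasSum_wt hp 1).mul_right C) (fun s => hw _ _)
    have h3 : PP p 1 = p 0 := by simp [PP]
    rw [h3] at h2
    refine le_trans (norm_add_le _ _) ?_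
    have := norm_add_le (((1 - p 0 : ℝ) : ℂ) * g x) (((∏' r, p r : ℝ) : ℂ) * g (succDig x))
    linarith
  · push Not at hall
    classical
    set k := Nat.find hall with hkdef
    have hk : x k ≠ Fin.last (e k + 1) := Nat.find_spec hall
    have hlt : ∀ j < k, x j = Fin.last (e j + 1) := fun j hj => not_not.mp (Nat.find_min hall hj)
    rw [formula_fin p g x k hk hlt]
    have h1 : ∀ m, ‖∑ s ∈ range m, ((PP p s * (1 - p s) : ℝ) : ℂ) * g (cut s x)‖ ≤
        (1 - PP p m) * C := by
      intro m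
      refine le_trans (norm_sum_le _ _) ?_
      refine le_trans (sum_le_sum fun s _ => hw s _) (le_of_eq ?_)
      rw [← sum_mul]
      congr 1
      induction m with
      | zero => simp [PP_zero]
      | succ m ih => rw [sum_range_succ, ih, wt_eq]; ring
    have h2 : ‖((PP p (k + 1) : ℝ) : ℂ) * g (succDig x)‖ ≤ PP p (k + 1) * C := by
      rw [norm_mul, Complex.norm_real, Real.norm_eq_abs, abs_of_nonneg (PP_nonneg hp _)]
      exact mul_le_mul_of_nonneg_left (hC _) (PP_nonneg hp _)
    refine le_trans (norm_add_le _ _) ?_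
    have := h1 (k + 1)
    linarith

theorem summable_bdd (p : ℕ → ℝ) (hp : ∀ r, 0 < p r ∧ p r ≤ 1) (g : Dig e → ℂ) (C : ℝ)
    (hC : ∀ x, ‖g x‖ ≤ C) (x : Dig e) :
    Summable (fun s : ℕ => ((PP p (s + 1) * (1 - p (s + 1)) : ℝ) : ℂ) * g (cut (s + 1) x)) := by
  apply Summable.of_norm_bounded ((hasSum_wt hp 1).mul_right C).summable
  intro s
  rw [norm_mul, Complex.norm_real, Real.norm_eq_abs, abs_of_nonneg (wt_nonneg hp _)]
  exact mul_le_mul_of_nonneg_left (hC _) (wt_nonneg hp _)

theorem formula_add (p : ℕ → ℝ) (hp : ∀ r, 0 < p r ∧ p r ≤ 1) (g h : Dig e → ℂ) (C D : ℝ)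
    (hC : ∀ x, ‖g x‖ ≤ C) (hD : ∀ x, ‖h x‖ ≤ D) (x : Dig e) :
    formula p (fun z => g z + h z) x = formula p g x + formula p h x := by
  by_cases hall : ∀ j, x j = Fin.last (e j + 1)
  · rw [formula_inf p _ x hall, formula_inf p _ x hall, formula_inf p _ x hall]
    have h1 := (summable_bdd p hp g C hC x).tsum_add (summable_bdd p hp h D hD x)
    simp only [mul_add]
    rw [h1]
    ring
  · push Not at hall
    classical
    set k := Nat.find hall with hkdef
    have hk : x k ≠ Fin.last (e k + 1) := Nat.find_spec hall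
    have hlt : ∀ j < k, x j = Fin.last (e j + 1) := fun j hj => not_not.mp (Nat.find_min hall hj)
    rw [formula_fin p _ x k hk hlt, formula_fin p _ x k hk hlt, formula_fin p _ x k hk hlt]
    simp only [mul_add, sum_add_distrib]
    ring

theorem formula_smul (p : ℕ → ℝ) (c : ℂ) (g : Dig e → ℂ) (x : Dig e) :
    formula p (fun z => c * g z) x = c * formula p g x := by
  by_cases hall : ∀ j, x j = Fin.last (e j + 1)
  · rw [formula_inf p _ x hall, formula_inf p _ x hall, mul_add, mul_add, ← tsum_mul_left]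
    congr 1
    · ring
    · apply tsum_congr
      intro s
      ring
  · push Not at hall
    classical
    set k := Nat.find hall with hkdef
    have hk : x k ≠ Fin.last (e k + 1) := Nat.find_spec hall
    have hlt : ∀ j < k, x j = Fin.last (e j + 1) := fun j hj => not_not.mp (Nat.find_min hall hj)
    rw [formula_fin p _ x k hk hlt, formula_fin p _ x k hk hlt, mul_add, mul_sum]
    congr 1
    · apply sum_congr rfl
      intro s _
      ring
    · ring

/-- Keep the first `r` digits and replace the others by `0`. -/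
def keep (r : ℕ) (x : Dig e) : Dig e := fun j => if j < r then x j else 0

theorem keep_tendsto (x : Dig e) :
    Tendsto (fun q : ℕ × Dig e => keep q.1 q.2) (atTop ×ˢ 𝓝 x) (𝓝 x) := by
  rw [tendsto_pi_nhds]
  intro j
  have h1 : Tendsto (fun q : ℕ × Dig e => q.2 j) (atTop ×ˢ 𝓝 x) (𝓝 (x j)) :=
    ((continuous_apply j).tendsto x).comp tendsto_snd
  refine h1.congr' ?_
  filter_upwards [(eventually_gt_atTop j).prod_inl (𝓝 x)] with q hq
  simp [keep, hq]

theorem approx (g : C(Dig e, ℂ)) {ε : ℝ} (hε : 0 < ε) :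
    ∃ r : ℕ, ∀ x, ‖g x - g (keep r x)‖ < ε := by
  have h : TendstoUniformly (fun (r : ℕ) (x : Dig e) => g (keep r x)) g atTop := by
    rw [← tendstoLocallyUniformly_iff_tendstoUniformly_of_compactSpace,
      tendstoLocallyUniformly_iff_forall_tendsto]
    intro x
    refine Tendsto.mono_right ?_ (nhds_le_uniformity (g x))
    exact ((g.continuous.tendsto x).comp tendsto_snd).prodMk_nhds
      ((g.continuous.tendsto x).comp (keep_tendsto x))
  rw [Metric.tendstoUniformly_iff] at h
  obtain ⟨r, hr⟩ := (h ε hε).exists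
  refine ⟨r, fun x => ?_⟩
  have := hr x
  rwa [dist_eq_norm] at this

theorem continuous_of_dependsOn {g : Dig e → ℂ} {r : ℕ} (hg : DependsOn r g) :
    Continuous g := by
  rw [continuous_iff_continuousAt]
  intro x
  have hev : ∀ᶠ y in 𝓝 x, g y = g x := by
    have h1 : ∀ᶠ y in 𝓝 x, ∀ j ∈ range r, y j = x j := by
      rw [Filter.eventually_all_finset]
      intro j _
      have h2 : Tendsto (fun y : Dig e => y j) (𝓝 x) (𝓝 (x j)) :=
        (continuous_apply j).tendsto x
      exact h2.eventually_mem ((isOpen_discrete {x j}).mem_nhds rfl)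
    filter_upwards [h1] with y hy
    exact hg y x (fun j hj => hy j (mem_range.mpr hj))
  exact (tendsto_const_nhds (x := g x)).congr' (hev.mono fun y hy => hy.symm)

theorem dependsOn_keep (g : Dig e → ℂ) (r : ℕ) : DependsOn r (fun x => g (keep r x)) := by
  intro x y hxy
  have : keep r x = keep r y := by
    funext j
    by_cases hj : j < r
    · simp [keep, hj, hxy j hj]
    · simp [keep, hj]
  simp only [this]

theorem formula_continuous (p : ℕ → ℝ) (hp : ∀ r, 0 < p r ∧ p r ≤ 1) (g : C(Dig e, ℂ)) :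
    Continuous (formula p g) := by
  apply continuous_of_uniform_approx_of_continuous
  intro u hu
  obtain ⟨ε, hε, hu⟩ := Metric.mem_uniformity_dist.mp hu
  obtain ⟨r, hr⟩ := approx g (half_pos hε)
  refine ⟨formula p (fun x => g (keep r x)),
    continuous_of_dependsOn (dependsOn_formula p hp _ r (dependsOn_keep _ r)), fun y => ?_⟩
  apply hu
  rw [dist_eq_norm]
  have h1 : formula p g y - formula p (fun x => g (keep r x)) y =
      formula p (fun x => g x - g (keep r x)) y := by
    have hb1 : ∀ x, ‖g x - g (keep r x)‖ ≤ ε / 2 := fun x => (hr x).le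
    have hb2 : ∀ x, ‖g (keep r x)‖ ≤ ‖g‖ := fun x => g.norm_coe_le_norm _
    have h2 := formula_add p hp (fun x => g x - g (keep r x)) (fun x => g (keep r x)) _ _
      hb1 hb2 y
    simp only [sub_add_cancel] at h2
    rw [h2]
    ring
  rw [h1]
  have h2 := norm_formula_le p hp (fun x => g x - g (keep r x)) (ε / 2) (fun x => (hr x).le) y
  linarith

/-- The stochastic adding machine operator on `C(Γ)`. -/
noncomputable def addingOp (e : ℕ → ℕ) (p : ℕ → ℝ) (hp : ∀ r, 0 < p r ∧ p r ≤ 1) :
    C(Dig e, ℂ) →L[ℂ] C(Dig e, ℂ) :=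
  LinearMap.mkContinuous
    { toFun := fun g => ⟨formula p g, formula_continuous p hp g⟩
      map_add' := fun g h => by
        ext x
        exact formula_add p hp g h ‖g‖ ‖h‖ g.norm_coe_le_norm h.norm_coe_le_norm x
      map_smul' := fun c g => by
        ext x
        exact formula_smul p c g x } 1 (fun g => by
      rw [one_mul, ContinuousMap.norm_le _ (norm_nonneg _)]
      exact norm_formula_le p hp g ‖g‖ g.norm_coe_le_norm)

theorem addingOp_apply (p : ℕ → ℝ) (hp : ∀ r, 0 < p r ∧ p r ≤ 1) (g : C(Dig e, ℂ))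
    (x : Dig e) : addingOp e p hp g x = formula p g x := rfl

/-- The residual spectrum. -/
def residualSpectrum {X : Type*} [NormedAddCommGroup X] [NormedSpace ℂ X] (S : X →L[ℂ] X) :
    Set ℂ :=
  {l | Function.Injective (S - l • ContinuousLinearMap.id ℂ X) ∧
    closure (Set.range (S - l • ContinuousLinearMap.id ℂ X)) ≠ Set.univ}

/-- The space of continuous functions depending on the first `r` digits. -/
def FF (e : ℕ → ℕ) (r : ℕ) : Submodule ℂ C(Dig e, ℂ) where
  carrier := {g | DependsOn r g}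
  add_mem' := fun {a b} ha hb x y hxy => by
    simp only [ContinuousMap.add_apply, ha x y hxy, hb x y hxy]
  zero_mem' := fun _ _ _ => rfl
  smul_mem' := fun c a ha x y hxy => by
    simp only [ContinuousMap.smul_apply, ha x y hxy]

theorem finite_FF (r : ℕ) : FiniteDimensional ℂ (FF e r) := by
  let ext : (∀ j : Fin r, Fin (e j + 2)) → Dig e := fun z j =>
    if h : j < r then z ⟨j, h⟩ else 0
  let Φ : FF e r →ₗ[ℂ] ((∀ j : Fin r, Fin (e j + 2)) → ℂ) :=
    { toFun := fun g z => (g : C(Dig e, ℂ)) (ext z)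
      map_add' := fun _ _ => rfl
      map_smul' := fun _ _ => rfl }
  apply FiniteDimensional.of_injective Φ
  intro g h hgh
  apply Subtype.ext
  ext x
  have h1 := congrFun hgh (fun j : Fin r => x j)
  have h2 : ∀ f : FF e r, (f : C(Dig e, ℂ)) (ext (fun j : Fin r => x j)) =
      (f : C(Dig e, ℂ)) x := by
    intro f
    apply f.2
    intro j hj
    simp [ext, hj]
  have h3 : (g : C(Dig e, ℂ)) (ext (fun j : Fin r => x j)) =
      (h : C(Dig e, ℂ)) (ext (fun j : Fin r => x j)) := h1
  rw [h2, h2] at h3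
  exact h3

/-- For all `d` (with all `d_r ≥ 2`, bounded or not) and all `p` with `0 < p_r ≤ 1`, the residual
spectrum of the stochastic adding machine operator on `C(Γ)` is empty. -/
theorem result (e : ℕ → ℕ) (p : ℕ → ℝ) (hp : ∀ r, 0 < p r ∧ p r ≤ 1) :
    residualSpectrum (addingOp e p hp) = ∅ := by
  rw [Set.eq_empty_iff_forall_notMem]
  rintro l ⟨hinj, hcl⟩
  apply hcl
  set A : C(Dig e, ℂ) →L[ℂ] C(Dig e, ℂ) :=
    addingOp e p hp - l • ContinuousLinearMap.id ℂ _ with hA
  have hinv : ∀ r, ∀ g ∈ FF e r, A g ∈ FF e r := by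
    intro r g hg
    refine (FF e r).sub_mem ?_ ((FF e r).smul_mem l hg)
    exact dependsOn_formula p hp g r hg
  have hsub : ∀ r, ∀ g ∈ FF e r, g ∈ Set.range A := by
    intro r g hg
    have := finite_FF (e := e) r
    let B : FF e r →ₗ[ℂ] FF e r := (A : C(Dig e, ℂ) →ₗ[ℂ] C(Dig e, ℂ)).restrict (hinv r)
    have hB : Function.Injective B := by
      intro a b hab
      apply Subtype.ext
      apply hinj
      exact congrArg Subtype.val hab
    have hBs := LinearMap.injective_iff_surjective.mp hB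
    obtain ⟨a, ha⟩ := hBs ⟨g, hg⟩
    exact ⟨a, congrArg Subtype.val ha⟩
  rw [Set.eq_univ_iff_forall]
  intro g
  rw [Metric.mem_closure_iff]
  intro ε hε
  obtain ⟨r, hr⟩ := approx g (half_pos hε)
  let g' : C(Dig e, ℂ) :=
    ⟨fun x => g (keep r x), continuous_of_dependsOn (dependsOn_keep g r)⟩
  refine ⟨g', hsub r g' (dependsOn_keep g r), ?_⟩
  rw [dist_eq_norm]
  refine lt_of_le_of_lt ((ContinuousMap.norm_le _ (half_pos hε).le).mpr
    (fun x => (hr x).le)) (by linarith)

end Pool.Agent.Results.MP_8907f9_an.ResidualEmpty
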